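import Pool.Agent.N683.SL.Main

/-!
# The rational abelian Stark conjecture: totally complex base fields and high orders suffice

All number fields are subfields of the field `Qb` of algebraic numbers, `GK K = Gal(Qb/K)` is a subgroup of
`GQ = Gal(Qb/ℚ)` (with the Krull topology), and functions on `GK K` are extended by zero to `GQ`.  `IsVirt K θ`: `θ`
is a virtual character (integral combination of traces of representations of `GK K` with open kernel);
`IsOneDim K f`: `f` is a one-dimensional character, `IsQuadratic K f`: moreover with values `1` and `-1`;
`IndK K K' θ` is the induced virtual character; `resK K' f` is the restriction to `GK K'`.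

The question.  Let `H/F` be abelian with group `G`, `S` a finite set of places of `F` as in the problem, `r` the number
of the places in `S` that split completely in `H`.  By Tate and Rubin the inclusion `θ X_r ⊂ λ(U_r)` of Q1 says that
`A(χ) ^ σ = A(χ ^ σ)` for all automorphisms `σ` of `ℂ` and all characters `χ` of `G` for which `L_S(χ, s)` has a
zero of order exactly `r` at `0`, where `A` is the ratio of Stark's regulator and the leading coefficient at `0`.
For a fixed `σ` the function `D F χ = A(χ) ^ σ / A(χ ^ σ)` is a defect function in the sense of `IsDefect`:
multiplicative, invariant under induction, and trivial for the characters of order at most two.  If `F` has at least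
`N` complex places, then `r ≥ N` for all abelian `H/F` and all `S`.

The results, for every natural number `N`.

(0) Over every number field `K` there are finitely many fields `F_j ⊇ K` with integers `e_j`, such that `F_j` has
more than `N` complex places and degree `q` or `q ^ 2` over `K` for a prime number `q > N` (so if `N ≥ |G|` then the
characters of `G` are restricted to characters of `Gal(H F_j / F_j) = G`), and `f = ∑ e_j Ind (f|F_j)` for ALL
one-dimensional characters `f` of `GK K`; so `D K f = ∏ D F_j (f|F_j) ^ e_j`.

(1) The induction theorem of `TotallyComplexBaseFields` with large fields: `2 θ` is an integral combination of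
characters induced from characters of order at most two and from one-dimensional characters of totally complex
fields with at least `N` complex places; so is `θ` itself if it is the character of a representation with an
exponent not divisible by `4`; if `K` has a real embedding this is sharp for one-dimensional characters.  If `K`
is totally complex then every `θ` is a combination of characters induced from one-dimensional characters of totally
complex fields with at least `N` complex places.

(2) Let `D` be a defect function.
* If `D` is trivial on the one-dimensional characters of the number fields with at least `N` complex places, then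
  `D` is trivial: Q1 for all data with `r ≥ N` implies Q1 for all data.
* If `D` is trivial on the one-dimensional characters of the TOTALLY complex number fields with at least `N` complex
  places, then over all totally complex fields it is trivial, and over all number fields `K` it is `1` or `-1`, it is
  `1` on the characters of representations with an exponent not divisible by `4`, it is the same for one-dimensional
  characters `f`, `f'` with `f ^ (2 m) = f' ^ (2 m)`, `m` odd, and if it is `1` on the one-dimensional characters
  `f` of `2`-power order with `f(c) = -1` for all complex conjugations `c` in `GK K`, then it is `1` on all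
  one-dimensional characters of `GK K`; if this is so over all extensions of `K`, it is `1` on all virtual
  characters.

The proof combines the relations with pure fields of `Pool.Agent.N599.HO` (helper599, `HighOrders` on the page
`MP_46b841_nt`) with the induction theorem without real places of `Pool.Agent.N770.SK` (helper770,
`TotallyComplexBaseFields` there).
-/

set_option autoImplicit false

namespace Pool.Agent.Results.MP_d9bae3_nt.HighOrderComplexFields

open Pool.Agent.N770.SK Pool.Agent.N683.SL

theorem result (N : ℕ) :
    -- (0) the relations with large fields
    (∀ K, IsNF K → ∃ (r : ℕ) (F : Fin r → Sub) (e : Fin r → ℤ), (∀ j, LargeOver N K (F j)) ∧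
      (∀ f, IsOneDim K f → (∀ j, IsOneDim (F j) (resK (F j) f)) ∧
        f = ∑ j, e j • IndK K (F j) (resK (F j) f)) ∧
      ∀ D, IsDefect D → ∀ f, IsOneDim K f → D K f = ∏ j, D (F j) (resK (F j) f) ^ e j) ∧
    -- (1) the induction theorem with large totally complex fields
    (∀ K, IsNF K → (∀ θ, IsVirt K θ → InGenLarge N K (θ + θ)) ∧ (∀ θ, IsNotFour K θ → InGenLarge N K θ) ∧
      (∀ θ, IsVirt K θ → InLarge N K θ) ∧
      (HasReal K → (∀ f, IsOneDim K f → (InGenLarge N K f ↔ OrderNotFour K f)) ∧
        ∀ f, IsOneDim K f → ∀ f', IsOneDim K f' → (InGenLarge N K (f - f') ↔ SquaresAgree K f f'))) ∧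
    -- (2) defect functions
    (∀ D, IsDefect D →
      (TrivialMany N D → ∀ K, IsNF K → ∀ θ, IsVirt K θ → D K θ = 1) ∧
      (TrivialComplexMany N D → ∀ K, IsNF K →
        (TotComplex K → ∀ θ, IsVirt K θ → D K θ = 1) ∧
        (∀ θ, IsVirt K θ → D K θ = 1 ∨ D K θ = -1) ∧ (∀ θ, IsNotFour K θ → D K θ = 1) ∧
        (∀ f, IsOneDim K f → ∀ f', IsOneDim K f' → SquaresAgree K f f' → D K f = D K f') ∧
        ((∀ f, IsOddTwo K f → D K f = 1) → ∀ f, IsOneDim K f → D K f = 1) ∧
        ((∀ K', IsNF K' → K ≤ K' → ∀ f, IsOddTwo K' f → D K' f = 1) →
          ∀ θ, IsVirt K θ → D K θ = 1))) := by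
  refine ⟨fun K hK => ?_, fun K hK => ?_, fun D hD => ⟨fun h K hK θ hθ => trivial_of_many hD h hK hθ,
    fun h K hK => ⟨fun hc θ hθ => complex_of_many hD h hK hc hθ, ?_⟩⟩⟩
  · obtain ⟨r, F, e, hF, hrel⟩ := lin_large K hK N
    have h1 : ∀ f, IsOneDim K f → f = ∑ j, e j • IndK K (F j) (resK (F j) f) := by
      rintro _ ⟨χ, hχ, rfl⟩
      exact hrel χ hχ
    exact ⟨r, F, e, hF, fun f hf => ⟨fun j => isOneDim_res (hF j).2.1 (hF j).1 hf, h1 f hf⟩,
      fun D hD f hf => defect_prod hD hK (fun j => ⟨(hF j).1, (hF j).2.1⟩) hf (h1 f hf)⟩
  · obtain ⟨h1, h2, h3⟩ := gen_all' K hK
    refine ⟨fun θ hθ => (inGen_iff_large N).1 (h1 θ hθ), fun θ hθ => (inGen_iff_large N).1 (h2 θ hθ),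
      fun θ hθ => inLarge N hK hθ, fun hr => ⟨fun f hf => ?_, fun f hf f' hf' => ?_⟩⟩
    · rw [← inGen_iff_large]
      exact (h3 hr).1 f hf
    · rw [← inGen_iff_large]
      exact (h3 hr).2 f hf f' hf'
  · have hc : TrivialComplex D := fun K' hK' hcK f hf => by
      refine complex_of_many hD h hK' hcK ?_
      obtain ⟨χ, hχ, rfl⟩ := hf
      exact lin_vc hχ
    exact defect_complex' hD hc K hK

end Pool.Agent.Results.MP_d9bae3_nt.HighOrderComplexFields
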