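import Pool.Agent.N739.SU.Fin2

/-!
# Stark's rational conjecture of order `r`: the Stickelberger element `θ` from the primes of `F`

Let `H/F` be a finite abelian extension with group `G`, `S` and `T` the sets of places of the problem
(`T` is called `Y` here), where `S` contains at least one finite place; let `𝔪` be a multiple of the
conductor which is divisible exactly by the primes in `S`, and `art` the Artin map on the ideals prime to
`𝔪`.  Let `V` be a set of `r` places in `S`, archimedean or not, which split completely in `H`, `|S| ≥ r + 1`.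
For `γ > π/2`, `T > 0` and `B ∈ G` let

`P_T(B) = ∑ (1/k) e^{iγ k log N(v) / T} / Γ(1 + k log N(v) / T)`,

the sum over all primes `v ∉ S` and all `k ≥ 1` with `art(v)^k = B`.  This converges absolutely, and the
weight of every single prime power `v^k` tends to `1/k` as `T → ∞`.  We prove, without any hypothesis on
the zeros of the L-functions, that the coefficient of `g` of `Θ_{S,T}(s) / s^r` has the limit

`D(g) = (T e^{-Λ})^r |G|⁻¹ ∑_χ χ(g) ∏_{v ∈ Y} (1 - χ(v) N(v)) exp(∑_B χ(B) P_T(B)) + O(1/T)`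

as `s → 0`, `Λ = ∫_0^∞ (e^{-u} - e^{iγu} / Γ(1 + u)) du / u`.  So the coefficients of the element
`θ = Θ^{(r)}_{S,T}(H/F, 0) = r! ∑_g D(g) g` of the problem are limits of expressions in which only the norms and
the Artin symbols of the primes outside `S` occur.  By Rubin's theorem, quoted in the problem, Q1 holds
for the given data if and only if some `u ∈ 𝒰_r` satisfies `φ(λ(u)) = θ`; by the last statement below this
equation holds if and only if `r!` times these expressions tend to the coefficients of `φ(λ(u))` along one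
sequence `T_n → ∞`.
-/

set_option autoImplicit false

open scoped Classical

namespace Pool.Agent.Results.MP_d9bae3_nt.StickelbergerFromPrimes

open NumberField IsDedekindDomain Filter Topology

section defs

variable {K : Type} [Field K] [NumberField K]

/-- the ideals prime to `𝔪` -/
def PrimeTo (𝔪 : Ideal (𝓞 K)) : Submonoid (Ideal (𝓞 K)) where
  carrier := {𝔞 | IsCoprime 𝔞 𝔪}
  mul_mem' hx hy := IsCoprime.mul_left hx hy
  one_mem' := isCoprime_one_left

/-- `art` is the Artin map of a finite abelian extension `H/K` with group `G` on the ideals prime to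
`𝔪`, where `𝔪` is a multiple of the conductor of `H/K`: a surjective homomorphism which is trivial on
`(x)` for all totally positive `x ≡ 1 mod 𝔪`.  (By class field theory these homomorphisms are exactly the
Artin maps.) -/
structure IsArtinMap (𝔪 : Ideal (𝓞 K)) {G : Type} [CommGroup G] (art : PrimeTo 𝔪 →* G) :
    Prop where
  surj : Function.Surjective art
  triv : ∀ x : 𝓞 K, x - 1 ∈ 𝔪 → (∀ σ : K →+* ℝ, 0 < σ (x : K)) →
    ∀ 𝔞 : PrimeTo 𝔪, (𝔞 : Ideal (𝓞 K)) = Ideal.span {x} → art 𝔞 = 1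

/-- the infinite place `w` splits completely in `H`: `art` is also trivial on the `(x)`, `x ≡ 1 mod 𝔪`,
with `x` positive at the real places different from `w` (for a complex `w` this is automatic) -/
def SplitsInf {𝔪 : Ideal (𝓞 K)} {G : Type} [CommGroup G] (art : PrimeTo 𝔪 →* G)
    (w : InfinitePlace K) : Prop :=
  ∀ x : 𝓞 K, x - 1 ∈ 𝔪 → (∀ v : InfinitePlace K, v.IsReal → v ≠ w → 0 < (v.embedding (x : K)).re) →
    ∀ 𝔞 : PrimeTo 𝔪, (𝔞 : Ideal (𝓞 K)) = Ideal.span {x} → art 𝔞 = 1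

/-- the prime `v` (which may divide `𝔪`) splits completely in `H`: if `𝔪 = v^n 𝔫` with `v ∤ 𝔫`, then
`art 𝔟 = 1` for all `𝔟` prime to `𝔪` such that some `v^k 𝔟` is generated by a totally positive
`x ≡ 1 mod 𝔫` -/
def SplitsFin {𝔪 : Ideal (𝓞 K)} {G : Type} [CommGroup G] (art : PrimeTo 𝔪 →* G)
    (v : HeightOneSpectrum (𝓞 K)) : Prop :=
  ∀ (𝔫 : Ideal (𝓞 K)) (n : ℕ), 𝔪 = v.asIdeal ^ n * 𝔫 → IsCoprime v.asIdeal 𝔫 →
    ∀ (x : 𝓞 K) (k : ℕ) (𝔟 : PrimeTo 𝔪), x - 1 ∈ 𝔫 → (∀ σ : K →+* ℝ, 0 < σ (x : K)) →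
      Ideal.span {x} = v.asIdeal ^ k * (𝔟 : Ideal (𝓞 K)) → art 𝔟 = 1

/-- the place `p`, infinite or a prime dividing `𝔪` (that is, `p ∈ S`), splits completely in `H` -/
def SplitsCompletely {𝔪 : Ideal (𝓞 K)} {G : Type} [CommGroup G] (art : PrimeTo 𝔪 →* G) :
    InfinitePlace K ⊕ HeightOneSpectrum (𝓞 K) → Prop
  | .inl w => SplitsInf art w
  | .inr v => v.asIdeal ∣ 𝔪 ∧ SplitsFin art v

variable {𝔪 : Ideal (𝓞 K)} {G : Type} [CommGroup G]

/-- `χ(v)` for `v ∤ 𝔪`, and `0` for `v ∣ 𝔪` -/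
noncomputable def val (art : PrimeTo 𝔪 →* G) (χ : G →* ℂˣ) (v : HeightOneSpectrum (𝓞 K)) : ℂ :=
  if h : IsCoprime v.asIdeal 𝔪 then ((χ (art ⟨v.asIdeal, h⟩) : ℂˣ) : ℂ) else 0

/-- `N(v)` -/
noncomputable def nm (v : HeightOneSpectrum (𝓞 K)) : ℂ := ((Ideal.absNorm v.asIdeal : ℕ) : ℂ)

/-- `L_{S,T}(χ, s) = ∏_{v ∉ S} (1 - χ(v) N(v)^{-s})⁻¹ ∏_{v ∈ Y} (1 - χ(v) N(v)^{1-s})`, `Y` the set `T` of
the problem -/
noncomputable def LST (art : PrimeTo 𝔪 →* G) (Y : Finset (HeightOneSpectrum (𝓞 K))) (χ : G →* ℂˣ)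
    (s : ℂ) : ℂ :=
  (∏' v : HeightOneSpectrum (𝓞 K), (1 - val art χ v * nm v ^ (-s))⁻¹) *
    ∏ v ∈ Y, (1 - val art χ v * nm v ^ (1 - s))

/-- the coefficient of `g` of the Stickelberger element `Θ_{S,T}(s)`, for which
`χ(Θ_{S,T}(s)) = L_{S,T}(χ⁻¹, s)` for all `χ` -/
noncomputable def theta (art : PrimeTo 𝔪 →* G) (Y : Finset (HeightOneSpectrum (𝓞 K))) (g : G)
    (s : ℂ) : ℂ :=
  (Nat.card G : ℂ)⁻¹ * ∑ᶠ χ : G →* ℂˣ, ((χ g : ℂˣ) : ℂ) * LST art Y χ s

/-- `Z` is the continuation of the coefficient of `g`: meromorphic in the plane, equal to it for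
`Re s > 1` -/
def IsContinuation (art : PrimeTo 𝔪 →* G) (Y : Finset (HeightOneSpectrum (𝓞 K))) (g : G)
    (Z : ℂ → ℂ) : Prop :=
  (∀ s, MeromorphicAt Z s) ∧ ∀ s : ℂ, 1 < s.re → Z s = theta art Y g s

/-- the weight of the prime power `v^k`, `x = (v, k - 1)`:
`(1/k) e^{iγ k log N(v) / T} / Γ(1 + k log N(v) / T)` -/
noncomputable def weight (γ T : ℝ) (x : HeightOneSpectrum (𝓞 K) × ℕ) : ℂ :=
  1 / (x.2 + 1) * (Complex.exp ((γ * ((x.2 + 1) * Real.log (Ideal.absNorm x.1.asIdeal) / T) : ℝ) *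
    Complex.I) / (Real.Gamma (1 + (x.2 + 1) * Real.log (Ideal.absNorm x.1.asIdeal) / T) : ℂ))

/-- the prime power `v^k`, `x = (v, k - 1)`, is prime to `𝔪` and has the Artin symbol `B` -/
def InClass (art : PrimeTo 𝔪 →* G) (B : G) (x : HeightOneSpectrum (𝓞 K) × ℕ) : Prop :=
  ∃ h : IsCoprime x.1.asIdeal 𝔪, art ⟨x.1.asIdeal, h⟩ ^ (x.2 + 1) = B

/-- `P_T(B)` -/
noncomputable def P (art : PrimeTo 𝔪 →* G) (γ T : ℝ) (B : G) : ℂ :=
  ∑' x : HeightOneSpectrum (𝓞 K) × ℕ, if InClass art B x then weight γ T x else 0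

/-- `Λ = ∫_0^∞ (e^{-u} - e^{iγu} / Γ(1 + u)) du / u` -/
noncomputable def Lam (γ : ℝ) : ℂ := ∫ u in Set.Ioi (0 : ℝ),
  (Complex.exp (-(u : ℂ)) - Complex.exp ((γ * u : ℝ) * Complex.I) * ((Real.Gamma (1 + u))⁻¹ : ℝ)) / u

/-- `(T e^{-Λ})^r` times the coefficient of `g` of the element of `ℂ[G]` on which `χ⁻¹` has the value
`∏_{v ∈ Y} (1 - χ(v) N(v)) exp(∑_B χ(B) P_T(B))`; the sum over `B` is over all Artin symbols -/
noncomputable def approx (art : PrimeTo 𝔪 →* G) (Y : Finset (HeightOneSpectrum (𝓞 K))) (r : ℕ)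
    (γ T : ℝ) (g : G) : ℂ :=
  ((T : ℂ) * Complex.exp (-Lam γ)) ^ r * ((Nat.card G : ℂ)⁻¹ * ∑ᶠ χ : G →* ℂˣ, ((χ g : ℂˣ) : ℂ) *
    ((∏ v ∈ Y, (1 - val art χ v * nm v)) * Complex.exp (∑ᶠ B : G, ((χ B : ℂˣ) : ℂ) * P art γ T B)))

end defs

/-- **Main theorem.**  Let `K` be a number field (the field `F` of the problem), `𝔪 ≠ 0, 𝒪_K` an integral
ideal (`S` consists of the infinite places and the primes dividing `𝔪`), `G` a finite commutative group,
`art` the Artin map of an abelian extension of `K` with group `G` on the ideals prime to `𝔪`, `Y` a finite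
set of primes, `V` a set of places in `S` which split completely, `|S| ≥ |V| + 1`, `r = |V|` and `γ > π/2`.
* The sums `P_T(B)` converge absolutely.
* The coefficients of `Θ_{S,T}(s)` have continuations, and there are numbers `D(g)` with
  `Z(s) / s^r → D(g)` as `s → 0` for the continuation `Z` of the coefficient of `g` and
  `approx(T) = D(g) + O(1/T)`.
* For all complex numbers `R_g`: `r! D(g) = R_g` for all `g` if and only if `r!` times the expressions
  tend to `R_g` for all `g` along one sequence `T_n → ∞`. -/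
theorem result (K : Type) [Field K] [NumberField K] (𝔪 : Ideal (𝓞 K)) (hbot : 𝔪 ≠ ⊥) (htop : 𝔪 ≠ ⊤)
    (G : Type) [CommGroup G] [Finite G] (art : PrimeTo 𝔪 →* G) (hart : IsArtinMap 𝔪 art)
    (Y : Finset (HeightOneSpectrum (𝓞 K)))
    (V : Finset (InfinitePlace K ⊕ HeightOneSpectrum (𝓞 K))) (hV : ∀ p ∈ V, SplitsCompletely art p)
    (hS : V.card + 1 ≤ Fintype.card (InfinitePlace K) +
      {v : HeightOneSpectrum (𝓞 K) | v.asIdeal ∣ 𝔪}.ncard)
    (γ : ℝ) (hγ : Real.pi / 2 < γ) :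
    (∀ T : ℝ, 0 < T → ∀ g : G, Summable fun x => ‖if InClass art g x then weight γ T x else 0‖) ∧
    ∃ D : G → ℂ, (∀ g : G, (∃ Z, IsContinuation art Y g Z) ∧
      (∀ Z, IsContinuation art Y g Z →
        Tendsto (fun s : ℂ => Z s / s ^ V.card) (𝓝[≠] 0) (𝓝 (D g))) ∧
      (fun T : ℝ => approx art Y V.card γ T g - D g) =O[atTop] (fun T : ℝ => 1 / T)) ∧
      ∀ R : G → ℂ, (∀ g, (V.card.factorial : ℂ) * D g = R g) ↔
        ∃ t : ℕ → ℝ, Tendsto t atTop atTop ∧
          ∀ g, Tendsto (fun n => (V.card.factorial : ℂ) * approx art Y V.card γ (t n) g) atTop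
            (𝓝 (R g)) := by
  have hT : Pool.Agent.N739.SU.Triv (𝔮 := 𝔪) art := fun x hx hp => hart.triv x hx hp _ rfl
  have hr : Pool.Agent.N739.SU.OrdGe htop (𝔮 := 𝔪) art V.card := by
    refine Pool.Agent.N739.SU.ordGe_V hbot htop (𝔮 := 𝔪) hart.surj hT V (fun p hp => ?_) hS
    have h := hV p hp
    cases p with
    | inl w => exact fun x hx hv => h x hx hv _ rfl
    | inr v => exact h
  have hval : ∀ (χ : G →* ℂˣ) (v : HeightOneSpectrum (𝓞 K)), val art χ v =
      Pool.Agent.N739.SU.et htop (𝔮 := 𝔪) art χ v.asIdeal := by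
    intro χ v
    unfold val
    split_ifs with h
    · exact (Pool.Agent.N739.SU.et_pos htop (𝔮 := 𝔪) art χ h).symm
    · exact (Pool.Agent.N739.SU.et_neg htop (𝔮 := 𝔪) art χ h).symm
  set c : (G →* ℂˣ) → ℂ → ℂ := fun χ s => ∏ v ∈ Y, (1 - val art χ v * nm v ^ (1 - s)) with hcdef
  have hc : ∀ χ, Differentiable ℂ (c χ) := by
    intro χ
    rw [hcdef]
    refine Differentiable.fun_finsetProd fun v _ => ?_
    intro s
    exact (differentiableAt_const _).sub ((differentiableAt_const _).mul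
      (((differentiableAt_const (1 : ℂ)).sub differentiableAt_id).const_cpow
        (Or.inl (Pool.Agent.N739.SU.nm_ne v))))
  have hc0 : ∀ χ, c χ 0 = ∏ v ∈ Y, (1 - val art χ v * nm v) := by
    intro χ
    rw [hcdef]
    simp only
    refine Finset.prod_congr rfl fun v _ => ?_
    rw [sub_zero, Complex.cpow_one]
  have hth : ∀ (g : G) (s : ℂ), 1 < s.re →
      theta art Y g s = Pool.Agent.N739.SU.th htop (𝔮 := 𝔪) art c g s := by
    intro g s hs
    unfold theta Pool.Agent.N739.SU.th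
    congr 1
    refine finsum_congr fun χ => ?_
    congr 1
    unfold LST
    rw [← (Pool.Agent.N739.SU.LF_prod htop (𝔮 := 𝔪) art χ hs).tprod_eq]
    congr 1
  obtain ⟨D, hD⟩ := Pool.Agent.N739.SU.main2 hbot htop hT hr hγ hc
  have hO : ∀ g, (fun T : ℝ => approx art Y V.card γ T g - D g) =O[atTop] (fun T : ℝ => 1 / T) := by
    intro g
    refine (hD g).2.2.congr_left fun T => ?_
    unfold approx
    simp only [hc0]
    rfl
  refine ⟨fun T hT0 B => Pool.Agent.N739.SU.summ hbot htop hT γ hT0 B, D, fun g => ⟨?_, ?_, hO g⟩,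
    fun R => ?_⟩
  · obtain ⟨Z, hZ, hZ'⟩ := (hD g).1
    exact ⟨Z, hZ, fun s hs => by rw [hZ' s hs, hth g s hs]⟩
  · intro Z hZ
    refine ((hD g).2.1 Z hZ.1 fun s hs => by rw [hZ.2 s hs, hth g s hs]).congr fun s => ?_
    rw [div_eq_inv_mul]
  · have h1 : ∀ g, Tendsto (fun T : ℝ => (V.card.factorial : ℂ) * approx art Y V.card γ T g) atTop
        (𝓝 ((V.card.factorial : ℂ) * D g)) := fun g =>
      (Pool.Agent.N739.SU.lim_of_O (hO g)).const_mul _
    rw [← Pool.Agent.N739.SU.seq_lim (f := fun g T => (V.card.factorial : ℂ) *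
      approx art Y V.card γ T g) h1 R]
    exact forall_congr' fun g => eq_comm

end Pool.Agent.Results.MP_d9bae3_nt.StickelbergerFromPrimes
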